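import Pool.Agent.H521.G.T10d
import Pool.Agent.H521.G.MaxGap2

open MeasureTheory Set Filter Topology
open scoped ENNReal NNReal ComplexConjugate

namespace Pool.Agent.Results.MP_c853c5_nt.EveryOrderWithAllStatistics

/-- A sequence of (Beurling) generalised primes `1 < p 0 < p 1 < ⋯ → ∞`. -/
structure GenPrimes (p : ℕ → ℝ) : Prop where
  one_lt : 1 < p 0
  strictMono : StrictMono p
  tendsto : Tendsto p atTop atTop

/-- The generalised integer `∏ p_j ^ (e j)` with exponent vector `e`. -/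
noncomputable def genInt (p : ℕ → ℝ) (e : ℕ →₀ ℕ) : ℝ := e.prod fun j k => p j ^ k

/-- `N_P(x)`, the number of generalised integers `≤ x`, counted with multiplicity. -/
noncomputable def countInts (p : ℕ → ℝ) (x : ℝ) : ℕ := Set.ncard {e : ℕ →₀ ℕ | genInt p e ≤ x}

/-- `π_P(x)`, the number of generalised primes `≤ x`. -/
noncomputable def countPrimes (p : ℕ → ℝ) (x : ℝ) : ℕ := Set.ncard {j : ℕ | p j ≤ x}

/-- The zeta function `ζ_P(s) = ∑ n^{-s}` over the generalised integers. -/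
noncomputable def zetaP (p : ℕ → ℝ) (s : ℂ) : ℂ := ∑' e : ℕ →₀ ℕ, ((genInt p e : ℝ) : ℂ) ^ (-s)

/-- The main term `∫_2^x (1 - ∑_{ρ ∈ Z} Re u^{ρ-1}) du / log u` of the prime counting function,
that is `li x - ∑_ρ li x^ρ` up to a constant, for a finite multiset `Z` of zeros. -/
noncomputable def primeMain (Z : Multiset ℂ) (x : ℝ) : ℝ :=
  ∫ u in (2 : ℝ)..x, (1 - (Z.map fun ρ => ((u : ℂ) ^ (ρ - 1)).re).sum) / Real.log u

/-- `p` is a system of generalised primes whose zeta function continues to `Re s > 1/2`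
with only a simple pole at `1`, with zeros exactly `Z` there (with multiplicity) and with the
Lindelöf bound, and with square-root error terms in the counting of generalised integers and
of generalised primes.  For `Z = 0` this is the Riemann hypothesis for `p`. -/
structure System (Z : Multiset ℂ) (p : ℕ → ℝ) : Prop where
  primes : GenPrimes p
  summable : ∀ s : ℂ, 1 < s.re → Summable fun e : ℕ →₀ ℕ => ((genInt p e : ℝ) : ℂ) ^ (-s)
  zeta : ∃ g : ℂ → ℂ, DifferentiableOn ℂ g {s : ℂ | 1 / 2 < s.re} ∧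
    (∀ s : ℂ, 1 < s.re → (s - 1) * zetaP p s = (Z.map fun ρ => s - ρ).prod * Complex.exp (g s)) ∧
    ∀ ε : ℝ, 0 < ε → ∃ C : ℝ, ∀ s : ℂ, 1 / 2 + ε ≤ s.re →
      ‖(Z.map fun ρ => s - ρ).prod * Complex.exp (g s)‖ ≤ C * (1 + ‖s‖) ^ (1 + ε)
  ints : ∃ κ : ℝ, 0 < κ ∧ ∀ ε : ℝ, 0 < ε → ∃ C : ℝ, ∀ x : ℝ, 1 ≤ x →
    |(countInts p x : ℝ) - κ * x| ≤ C * x ^ (1 / 2 + ε)
  pnt : ∀ ε : ℝ, 0 < ε → ∃ C : ℝ, ∀ x : ℝ, 2 ≤ x →
    |(countPrimes p x : ℝ) - primeMain Z x| ≤ C * x ^ (1 / 2 + ε)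

/-- Bounded Lipschitz functions of `k` real variables. -/
def Test {k : ℕ} (φ : (Fin k → ℝ) → ℝ) : Prop :=
  (∃ B : ℝ, ∀ x, |φ x| ≤ B) ∧ ∃ L : ℝ≥0, LipschitzWith L φ

/-- The average of `φ (γ n, …, γ (n + k - 1))` over `n < N`. -/
noncomputable def mean {k : ℕ} (φ : (Fin k → ℝ) → ℝ) (γ : ℕ → ℝ) (N : ℕ) : ℝ :=
  (∑ n ∈ Finset.range N, φ fun i => γ (n + i)) / N

/-- The normalised gaps `(p (n + 1) - p n) / log (p n)`. -/
noncomputable def normGap (p : ℕ → ℝ) (n : ℕ) : ℝ := (p (n + 1) - p n) / Real.log (p n)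

/-- The number of gaps of length at least `(log p n) ^ a` after generalised primes `p n ≤ x`. -/
noncomputable def largeGaps (p : ℕ → ℝ) (a x : ℝ) : ℕ :=
  Set.ncard {n : ℕ | p n ≤ x ∧ Real.log (p n) ^ a ≤ p (n + 1) - p n}

/-- `largeGaps p a x = x / (log x) ^ (E + o(1))`; for `E = ∞` this means `O (x / (log x) ^ b)` for
every `b`. -/
def HasExponent (p : ℕ → ℝ) (a : ℝ) (E : ℝ≥0∞) : Prop :=
  (∀ b : ℝ, ENNReal.ofReal b < E → ∀ᶠ x : ℝ in atTop, (largeGaps p a x : ℝ) ≤ x / Real.log x ^ b) ∧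
  ∀ b : ℝ, E < ENNReal.ofReal b → ∀ᶠ x : ℝ in atTop, x / Real.log x ^ b ≤ (largeGaps p a x : ℝ)

/-- The lower limit `A ∈ [0, ∞]` of `log f(x) / log log x`: roughly `f(x) ≥ (log x) ^ (A - o(1))`. -/
noncomputable def polylogExponent (f : ℝ → ℝ) : ℝ≥0∞ :=
  liminf (fun x => ENNReal.ofReal (Real.log (f x) / Real.log (Real.log x))) atTop

/-- The maximal gap function `G(x) = max_{p n ≤ x} (p (n + 1) - p n)`. -/
noncomputable def maxGap (p : ℕ → ℝ) (x : ℝ) : ℝ := sSup {g | ∃ n, p n ≤ x ∧ g = p (n + 1) - p n}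

open Pool.Agent.H521 Pool.Agent.H521.G in
/-- **Theorem.** Let `γ` be a nonnegative sequence with limiting window statistics, `f` a regular
function (nondecreasing, `f(x) / log x → ∞`, `f(x + x ^ (3 / 4)) / f(x) → 1`), let
`e (a) ∈ [0, ∞]`, and let `ω → ∞` arbitrarily slowly. There is a system of generalised primes with
Riemann hypothesis (or any other finite set of zeros), Lindelöf bound and square-root error terms,
whose normalised gaps have all the window statistics of `γ`, whose maximal gap function is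
asymptotic to `f`, for which the number of gaps of length at least `log ^ a` is
`x / (log x) ^ (e (a) + o(1))` for all `a > 1` below the polylogarithmic exponent of `f`, and for
which the error term in the prime number theorem is at most `f(x) (log x) ^ ω(x)`, if and only if
the limiting mean of `min (γ, K)` is at most `1` for every `K`, `f(x) ≤ x ^ (1 / 2 + o(1))`, and `e`
is nondecreasing with `e (a) ≥ a`. -/
theorem result (Z : Multiset ℂ) (hZ : ∀ ρ ∈ Z, 1 / 2 < ρ.re ∧ ρ.re < 1)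
    (hZc : Z.map conj = Z) (γ : ℕ → ℝ) (hγ0 : ∀ n, 0 ≤ γ n)
    (hγ : ∀ (k : ℕ) (φ : (Fin k → ℝ) → ℝ), Test φ → ∃ l, Tendsto (mean φ γ) atTop (𝓝 l))
    (f : ℝ → ℝ) (hf0 : MonotoneOn f (Ici 2))
    (hf1 : Tendsto (fun x => f x / Real.log x) atTop atTop)
    (hf2 : Tendsto (fun x => f (x + x ^ (3 / 4 : ℝ)) / f x) atTop (𝓝 1))
    (e : ℝ → ℝ≥0∞) (ω : ℝ → ℝ) (hω : Tendsto ω atTop atTop) :
    (∃ p : ℕ → ℝ, System Z p ∧
      (∀ (k : ℕ) (φ : (Fin k → ℝ) → ℝ), Test φ → ∀ l, Tendsto (mean φ γ) atTop (𝓝 l) →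
        Tendsto (mean φ (normGap p)) atTop (𝓝 l)) ∧
      Tendsto (fun x => maxGap p x / f x) atTop (𝓝 1) ∧
      (∀ a, 1 < a → ENNReal.ofReal a < polylogExponent f → HasExponent p a (e a)) ∧
      ∀ᶠ x in atTop, |(countPrimes p x : ℝ) - primeMain Z x| ≤ f x * Real.log x ^ ω x) ↔
    (∀ K ε : ℝ, 0 < K → 0 < ε → ∀ᶠ N : ℕ in atTop,
      (∑ n ∈ Finset.range N, min (γ n) K) / N ≤ 1 + ε) ∧
      (∀ ε : ℝ, 0 < ε → ∀ᶠ x in atTop, f x ≤ x ^ (1 / 2 + ε)) ∧
      (∀ a b, 1 < a → a ≤ b → ENNReal.ofReal b < polylogExponent f → e a ≤ e b) ∧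
      ∀ a, 1 < a → ENNReal.ofReal a < polylogExponent f → ENNReal.ofReal a ≤ e a := by
  have hZ1 : ∀ ρ ∈ Z, ρ.re < 1 := fun ρ h => (hZ ρ h).2
  constructor
  · rintro ⟨p, hS, h1, h2, h3, -⟩
    have hW : SysW Z p := ⟨hS.primes.one_lt, hS.primes.strictMono, hS.primes.tendsto,
      hS.summable, hS.zeta, hS.pnt⟩
    obtain ⟨h4, h5⟩ := t8_nec2 hZ1 hW (h := f) (e := e) h3
    have hpos : ∀ᶠ x in atTop, 0 < f x := by
      filter_upwards [hf1.eventually_gt_atTop 0, eventually_gt_atTop 1] with x hx hx1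
      have := Real.log_pos hx1
      rwa [lt_div_iff₀ this, zero_mul] at hx
    refine ⟨t8_nec1 hZ1 hW hγ0 (fun φ hB hL => hγ 1 φ ⟨hB, hL⟩)
      (fun φ hB hL l hl => h1 1 φ ⟨hB, hL⟩ l hl),
      maxgap_nec hZ1 hS.primes.strictMono hS.primes.tendsto hS.pnt hpos h2,
      fun a b ha hab hb => ?_, h5⟩
    exact h4 ⟨ha, lt_of_le_of_lt (ENNReal.ofReal_le_ofReal hab) hb⟩ ⟨lt_of_lt_of_le ha hab, hb⟩ hab
  · rintro ⟨h1, hf3, h2, h3⟩
    obtain ⟨p, hs, h4, h5, h6, h7⟩ := t10_suff hZ1 hZc hγ0 h1 hf0 hf1 hf2 hf3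
      (e := e) (fun a ha b hb hab => h2 a b ha.1 hab hb.2) h3 hω
    refine ⟨p, ⟨⟨by linarith [hs.three_le 0], hs.mono, hs.tendsto⟩, hs.summable, hs.zeta,
      hs.ints, hs.pnt⟩, ?_, h6, h5, h7⟩
    rintro k φ ⟨⟨B, hB⟩, L, hL⟩ l hl
    exact h4 k φ B hB L hL l hl

end Pool.Agent.Results.MP_c853c5_nt.EveryOrderWithAllStatistics
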