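import Mathlib
import Pool.Agent.H569.RT2

namespace Pool.Agent.Results.MP_c853c5_nt.LegendreTablesAtEveryScale

open Filter

/-- the scale `log x (log log x)² log log log log x / (log log log x)²`; the gap record of Ford, Green, Konyagin,
Maynard and Tao is `log x log log x log log log log x / log log log x`. -/
noncomputable def f (x : ℝ) : ℝ :=
  Real.log x * (Real.log (Real.log x)) ^ 2 * Real.log (Real.log (Real.log (Real.log x))) /
    (Real.log (Real.log (Real.log x))) ^ 2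

/-- `p 0 < ... < p k` are primes with Legendre symbols `(p j / p i) = T i j` for `i < j`, and `p k ≤ p 0 + L`; all
the primes in `[p 0, p k]` are `≡ a (mod q)`; any two different primes, the smaller one `≤ p k` and the larger one
`≥ p 0`, differ by at least `g`. -/
def Chain {k : ℕ} (T : Fin (k + 1) → Fin (k + 1) → ℤ) (q a : ℕ) (g L : ℝ) (p : Fin (k + 1) → ℕ) : Prop :=
  StrictMono p ∧ (∀ i, (p i).Prime) ∧ (∀ i j, i < j → jacobiSym (p j) (p i) = T i j) ∧
  (p (Fin.last k) : ℝ) ≤ p 0 + L ∧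
  (∀ r : ℕ, r.Prime → p 0 ≤ r → r ≤ p (Fin.last k) → r ≡ a [MOD q]) ∧
  ∀ r r' : ℕ, r.Prime → r'.Prime → r < r' → r ≤ p (Fin.last k) → p 0 ≤ r' → g ≤ (r' : ℝ) - r

/-- the number of the integers in `(X, 4 X]` which are the first prime of such a chain -/
noncomputable def count {k : ℕ} (T : Fin (k + 1) → Fin (k + 1) → ℤ) (q a : ℕ) (g L X : ℝ) : ℕ :=
  Set.ncard {x : ℕ | X < x ∧ (x : ℝ) ≤ 4 * X ∧ ∃ p, p 0 = x ∧ Chain T q a g L p}

theorem result (k : ℕ) (T : Fin (k + 1) → Fin (k + 1) → ℤ) (hT : ∀ i j, T i j = 1 ∨ T i j = -1)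
    (q a : ℕ) (hq : Squarefree q) (ha : a.Coprime q) : ∃ κ C c : ℝ, 0 < κ ∧ 0 < c ∧
    ∀ᶠ X : ℝ in atTop, ∀ H : ℝ, C ≤ H → H ≤ c * f X →
      X ^ (4 / 5 : ℝ) ≤ (count T q a (κ * H) H X : ℝ) :=
  Pool.Agent.H569.RT.core k T hT q a hq ha

end Pool.Agent.Results.MP_c853c5_nt.LegendreTablesAtEveryScale
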