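import Mathlib
import Pool.Agent.H617.PF.B

/-!
Prime-free intervals of length of order `(log X) ^ 2` near every fourth power in `K[X]`, for a
finite field `K` with an even number of elements, and their number.
-/

open Polynomial

/-- Let `K` be a finite field with an even number `q` of elements. (1) For all `k ≥ 1`, all `s` and
all `Y` in `K[X]` with `deg Y ≥ 2 q ^ (k + 2) + 2` there is `A` of the same degree as
`X ^ s Y ^ 4`, with `deg (A - X ^ s Y ^ 4) ≤ s + 8 q ^ (k + 2) + 8`, such that none of the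
`q ^ (2 k)` polynomials `B` with `deg (B - A) < 2 k` is irreducible. (2) For all `k ≥ 1` and
`n ≥ 8 q ^ (k + 2) + 12` there are `q ^ (⌊n / 4⌋ - 2 q ^ (k + 2) - 3)` monic `A` of degree `n` with
this property of their neighbours, at mutual distances `deg (A - A') > 8 q ^ (k + 2)`. -/
theorem Pool.Agent.Results.MP_c853c5_nt.NearEveryFourthPower.result
    (K : Type*) [Field K] [Fintype K] (hK : Even (Fintype.card K)) :
    (∀ k s : ℕ, 1 ≤ k → ∀ Y : K[X], 2 * Fintype.card K ^ (k + 2) + 2 ≤ Y.natDegree →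
      ∃ A : K[X], A.natDegree = s + 4 * Y.natDegree ∧
        (A - X ^ s * Y ^ 4).natDegree ≤ s + 8 * Fintype.card K ^ (k + 2) + 8 ∧
        ∀ B : K[X], (B - A).degree < ((2 * k : ℕ) : WithBot ℕ) → ¬ Irreducible B) ∧
    (∀ k n : ℕ, 1 ≤ k → 8 * Fintype.card K ^ (k + 2) + 12 ≤ n →
      ∃ S : Finset K[X],
        S.card = Fintype.card K ^ (n / 4 - (2 * Fintype.card K ^ (k + 2) + 3)) ∧
        (∀ A ∈ S, A.Monic ∧ A.natDegree = n ∧
          ∀ B : K[X], (B - A).degree < ((2 * k : ℕ) : WithBot ℕ) → ¬ Irreducible B) ∧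
        ∀ A ∈ S, ∀ A' ∈ S, A ≠ A' → 8 * Fintype.card K ^ (k + 2) < (A - A').natDegree) := by
  have hchar : ringChar K = 2 :=
    FiniteField.even_card_iff_char_two.mpr (Nat.even_iff.mp hK)
  have : CharP K 2 := ringChar.eq_iff.mp hchar
  exact ⟨fun k s hk Y hY => Pool.Agent.H617.PF.near_all k s hk Y hY,
    fun k n hk hn => Pool.Agent.H617.PF.count k n hk hn⟩
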