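import Pool.Agent.H301.SZ.PrimeS
import Pool.Agent.H301.SZ.Vpw
import Pool.Agent.H301.SX.Fin

set_option autoImplicit false

/-!
# The square root law for sieve weights in windows of length `≍ log X loglog X` and longer

Large gaps between primes, dense clusters and irregularities of the distribution of primes in short intervals are
produced as follows: one fixes `n` in a residue class modulo the product `W` of (almost) all primes up to a multiple of
`log X`, puts a nonnegative sieve weight `w` of level `X^θ` on it (`w = 1` for large gaps and Maier's irregularities; the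
weights of Goldston, Pintz and Yildirim and of Maynard for small gaps and clusters), and looks at the primes in
`(n, n + U]`. Let `D` be the mean number of primes
in the window that one expects from the class alone (`W / (φ(W) log X)` times the mean number of integers of the window
prime to `W`), and let `P` be the true mean number of primes with respect to the weight. We prove

  `|√P - √D| ≤ √(e^γ θ / 2 · loglog X) + ε √(U / log X)`

for every nonnegative weight of level `X^θ`, `θ ≤ 1/100`, and every length `λ log X loglog X ≤ U ≤ X^(9/10)`, with `ε`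
and `λ` arbitrarily small. So: (a) a weight cannot produce a window without primes unless
`D ≤ (e^γ θ / 2 + ε') loglog X` for the class, that is unless the class leaves at most `(θ / 2 + ε') log X` integers of
the window; (b) in a class with few survivors a weight does not find more than `(e^γ θ / 2 + ε') loglog X` primes on average
(Maynard's weights find `c log k` primes with tuples of `k` elements; a fixed `K` in the definition `Good` below
corresponds to a fixed `k`); (c) for `U ≥ B log X loglog X` the weight is irrelevant: the mean number of primes is `D`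
up to `ε U / log X`, every weight is at most as good as the best residue class, and the method gives for windows of
this length nothing beyond sieving an interval by the primes up to `log X`.

Proof. The theorem of Bombieri and Vinogradov relative to `W` (library) turns `P` into the mean number of integers free
of all primes up to the level. Above `(log X)^(1+2a)` the number of survivors, divided by the density, is a martingale;
two inequalities with SHARP quadratic terms for the hits of a nonnegative function of bounded level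
(`exp` and `cosh` kernels with rates `r_p` proportional to `1 / log p`) are summed with weights `r_p` for which the
quadratic terms telescope; this gives `M ≤ (1 + J/c)(1 + 1/c) M₀ + (1/2 + δ)(c + J) ρ` and the corresponding lower
bound for every `c`, and the choice `c = √(2 M₀ J)` gives the square root law. Between `log X` and `(log X)^(1+2a)`
the loss is small, and below there is a pointwise comparison by an upper bound sieve.
-/

open Finset

namespace Pool.Agent.Results.MP_c853c5_nt.SquareRootLawForSieveWeights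

/-- the modulus `W`: the product of the primes `p ≤ (log X) / 1000` outside of `S` and different from `p₁` -/
noncomputable def modulus (X : ℕ) (S : Finset ℕ) (p₁ : ℕ) : ℕ :=
  ∏ p ∈ (Icc 1 ⌊Real.log X / 1000⌋₊).filter (fun p => p.Prime ∧ p ∉ S ∧ p ≠ p₁), p

/-- the omitted primes: at most one prime `p₁`, larger than `Z` (`p₁ = 1` if there is none), and the primes of
`S`, which are larger than `(log log X)^3` and have `∑ 1 / q ≤ 6 / (log log X)^2` -/
def Few (Z X : ℕ) (S : Finset ℕ) (p₁ : ℕ) : Prop :=
  (p₁ = 1 ∨ (p₁.Prime ∧ Z < p₁)) ∧ (∀ q ∈ S, q.Prime ∧ Real.log (Real.log X) ^ 3 < q) ∧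
    ∑ q ∈ S, (1 : ℝ) / q ≤ 6 / Real.log (Real.log X) ^ 2

/-- the squarefree `q ≤ X^θ` prime to `W p₁` -/
noncomputable def levels (θ : ℝ) (X : ℕ) (S : Finset ℕ) (p₁ : ℕ) : Finset ℕ :=
  (Icc 1 ⌊(X : ℝ) ^ θ⌋₊).filter (fun q => Squarefree q ∧ q.Coprime (modulus X S p₁ * p₁))

/-- the weight `w(n) = ∑_q c_q(n mod W q)` -/
noncomputable def weight (θ : ℝ) (X : ℕ) (S : Finset ℕ) (p₁ : ℕ) (c : ℕ → ℕ → ℝ) (n : ℕ) : ℝ :=
  ∑ q ∈ levels θ X S p₁, c q (n % (modulus X S p₁ * q))

/-- the sum of the weight over `X < n ≤ 3X` -/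
noncomputable def mass (θ : ℝ) (X : ℕ) (S : Finset ℕ) (p₁ : ℕ) (c : ℕ → ℕ → ℝ) : ℝ :=
  ∑ n ∈ Ioc X (3 * X), weight θ X S p₁ c n

/-- `w` is nonnegative, `∑_{a mod W q} |c_q(a)| ≤ M (τ(q) log X)^K`, and the mass is at least
`M X / (W (log X)^K)` -/
def Good (θ : ℝ) (K X : ℕ) (S : Finset ℕ) (p₁ : ℕ) (c : ℕ → ℕ → ℝ) (M : ℝ) : Prop :=
  0 < M ∧ (∀ n, 0 ≤ weight θ X S p₁ c n) ∧
    (∀ q ∈ levels θ X S p₁, ∑ a ∈ range (modulus X S p₁ * q), |c q a| ≤
      M * (q.divisors.card : ℝ) ^ K * Real.log X ^ K) ∧
    M * X / (modulus X S p₁ * Real.log X ^ K) ≤ mass θ X S p₁ c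

/-- the tent function of `log u`, supported on `[1, e]` -/
noncomputable def tent (u : ℝ) : ℝ := max 0 (1 / 2 - |Real.log u - 1 / 2|)

/-- `tent(m / X) log m` if `m` is prime, and `0` otherwise -/
noncomputable def logPrime (X m : ℕ) : ℝ := if m.Prime then tent (m / (X : ℝ)) * Real.log m else 0

/-- the mean number of primes: the sum of `tent(p / X) log p / log X` over the primes `p` in `(n, n + U]`, on average
over `n` with respect to the weight, with the normalisation `∑ w(n) tent(n / X)` -/
noncomputable def primes (θ : ℝ) (X : ℕ) (S : Finset ℕ) (p₁ : ℕ) (c : ℕ → ℕ → ℝ) (U : ℕ) : ℝ :=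
  (∑ n ∈ Icc 1 (3 * X), weight θ X S p₁ c n * ∑ h ∈ Icc 1 U, logPrime X (n + h)) /
    (Real.log X * ∑ n ∈ Icc 1 (3 * X), weight θ X S p₁ c n * tent (n / (X : ℝ)))

/-- the mean of `f(n)` with respect to `w(n) tent(n / X)` -/
noncomputable def mean (θ : ℝ) (X : ℕ) (S : Finset ℕ) (p₁ : ℕ) (c : ℕ → ℕ → ℝ) (f : ℕ → ℝ) : ℝ :=
  (∑ n ∈ Icc 1 (3 * X), weight θ X S p₁ c n * tent (n / (X : ℝ)) * f n) /
    ∑ n ∈ Icc 1 (3 * X), weight θ X S p₁ c n * tent (n / (X : ℝ))

/-- the number of the integers in `(n, n + U]` prime to `W` -/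
noncomputable def survivors (X : ℕ) (S : Finset ℕ) (p₁ U n : ℕ) : ℝ :=
  (((Icc 1 U).filter (fun h => (n + h).Coprime (modulus X S p₁))).card : ℝ)

/-- the number of primes in `(n, n + U]` expected from the class of `n` modulo `W`: `W / (φ(W) log X)` times the number
of the integers in `(n, n + U]` prime to `W` -/
noncomputable def expected (X : ℕ) (S : Finset ℕ) (p₁ U n : ℕ) : ℝ :=
  survivors X S p₁ U n * ((modulus X S p₁ : ℝ) / Nat.totient (modulus X S p₁)) / Real.log X

/-- the number of the integers in `(n, n + U]` without prime factors `≤ log X`, divided by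
`U ∏_{p ≤ log X} (1 - 1 / p)` -/
noncomputable def rough (X U n : ℕ) : ℝ :=
  (((Icc 1 U).filter (fun h => ∀ p ∈ (Icc 1 ⌊Real.log X⌋₊).filter Nat.Prime, ¬ p ∣ n + h)).card : ℝ) /
    (U * ∏ p ∈ (Icc 1 ⌊Real.log X⌋₊).filter Nat.Prime, (1 - 1 / (p : ℝ)))

/-- the coefficients of the indicator function of the class of `b` modulo `W` -/
noncomputable def classWeight (X : ℕ) (S : Finset ℕ) (p₁ b q a : ℕ) : ℝ :=
  if q = 1 ∧ a % modulus X S p₁ = b % modulus X S p₁ then 1 else 0

lemma dq {z w f L U : ℝ} (hw : 0 < w) (hf : 0 < f) (hL : 0 < L) (hU : 0 < U) :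
    z * (w / f) / L / (U / L) = z / (U * (f / w)) := by
  field_simp

lemma lin {P D U C e : ℝ} (hP : 0 ≤ P) (hD : 0 ≤ D) (hC : 0 ≤ C) (hDC : D ≤ C * U) (hU : 0 ≤ U) (he : 0 ≤ e)
    (h : |√P - √D| ≤ e * √U) : |P - D| ≤ e * (2 * √C + e) * U := by
  have h1 : √D ≤ √C * √U := by
    rw [← Real.sqrt_mul hC]
    exact Real.sqrt_le_sqrt hDC
  have h2 : P - D = (√P - √D) * (√P + √D) := by
    have e1 := Real.sq_sqrt hP
    have e2 := Real.sq_sqrt hD
    linear_combination -e1 + e2
  have h3 : 0 ≤ √P + √D := by positivity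
  have h4 : √P + √D ≤ (2 * √C + e) * √U := by
    have := (abs_le.1 h).2
    linarith
  rw [h2, abs_mul, abs_of_nonneg h3]
  calc |√P - √D| * (√P + √D) ≤ (e * √U) * ((2 * √C + e) * √U) := mul_le_mul h h4 h3 (by positivity)
    _ = e * (2 * √C + e) * (√U * √U) := by ring
    _ = _ := by rw [Real.mul_self_sqrt hU]

/-- For all `0 < θ ≤ 1/100`, `λ > 0`, `ε > 0` there is `B` such that for all `K`, `Z` and large `X` there is a modulus
`W` as above for which, for all lengths `λ log X loglog X ≤ U ≤ X^(9/10)`: (1) the indicator functions of the classes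
`b` modulo `W` are admissible weights, with the mean `expected(b)`; (2) the square root law for every admissible
weight; (3) if `U ≤ λ⁻¹ log X loglog X` and no window `(n, n + U]` with `w(n) > 0` contains a prime of `(X, e X)`, then the
mean number of the integers prime to `W` in the windows is at most `(θ / 2 + ε) log X`; (4) if
`U ≥ B log X loglog X`, then the numbers of primes, divided by `U / log X`, are within `ε` of the mean of `rough` for
every admissible weight and of `rough(b)` for the classes, and lie, up to `ε`, between the values for two classes. -/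
theorem result : ∀ θ lam ε : ℝ, 0 < θ → θ ≤ 1 / 100 → 0 < lam → 0 < ε → ∃ B : ℝ, ∀ K Z : ℕ, ∃ X₀ : ℕ, ∀ X : ℕ, X₀ ≤ X →
    ∃ (S : Finset ℕ) (p₁ : ℕ), Few Z X S p₁ ∧ ∀ U : ℕ,
      lam * (Real.log X * Real.log (Real.log X)) ≤ U → (U : ℝ) ≤ (X : ℝ) ^ (9 / 10 : ℝ) →
      (∀ b : ℕ, Good θ K X S p₁ (classWeight X S p₁ b) 1 ∧
        mean θ X S p₁ (classWeight X S p₁ b) (expected X S p₁ U) = expected X S p₁ U b) ∧
      (∀ (c : ℕ → ℕ → ℝ) (M : ℝ), Good θ K X S p₁ c M →
        |√(primes θ X S p₁ c U) - √(mean θ X S p₁ c (expected X S p₁ U))| ≤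
          √(Real.exp Real.eulerMascheroniConstant * θ / 2 * Real.log (Real.log X)) + ε * √(U / Real.log X)) ∧
      ((U : ℝ) ≤ Real.log X * Real.log (Real.log X) / lam → ∀ (c : ℕ → ℕ → ℝ) (M : ℝ), Good θ K X S p₁ c M →
        (∀ n ∈ Icc 1 (3 * X), 0 < weight θ X S p₁ c n → ∀ p : ℕ, p.Prime → n < p → p ≤ n + U → X < p →
          Real.exp 1 * X ≤ p) →
        mean θ X S p₁ c (survivors X S p₁ U) ≤ (θ / 2 + ε) * Real.log X) ∧
      (B * (Real.log X * Real.log (Real.log X)) ≤ U →
        (∀ b : ℕ, |primes θ X S p₁ (classWeight X S p₁ b) U / (U / Real.log X) - rough X U b| ≤ ε ∧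
          |expected X S p₁ U b / (U / Real.log X) - rough X U b| ≤ ε) ∧
        (∀ (c : ℕ → ℕ → ℝ) (M : ℝ), Good θ K X S p₁ c M →
          |primes θ X S p₁ c U / (U / Real.log X) - mean θ X S p₁ c (rough X U)| ≤ ε ∧
          ∃ b b' : ℕ, primes θ X S p₁ (classWeight X S p₁ b') U / (U / Real.log X) - ε ≤
            primes θ X S p₁ c U / (U / Real.log X) ∧
            primes θ X S p₁ c U / (U / Real.log X) ≤
            primes θ X S p₁ (classWeight X S p₁ b) U / (U / Real.log X) + ε)) := by
  classical
  intro θ lam ε hθ hθ1 hlam hε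
  obtain ⟨τ, hτ, hpt⟩ := Pool.Agent.H301.SX.pointwise (ε / 8) (by positivity)
  obtain ⟨C, hC, hup⟩ := Pool.Agent.H301.SX.upG
  set e₀ : ℝ := min 1 (ε / (8 * (2 * √C + 1))) with he₀
  have hsC : 0 ≤ √C := Real.sqrt_nonneg C
  have he₀0 : 0 < e₀ := lt_min one_pos (by positivity)
  have he₀1 : e₀ ≤ 1 := min_le_left _ _
  have he₀2 : e₀ * (2 * √C + e₀) ≤ ε / 8 := by
    have h1 : e₀ ≤ ε / (8 * (2 * √C + 1)) := min_le_right _ _
    calc e₀ * (2 * √C + e₀) ≤ ε / (8 * (2 * √C + 1)) * (2 * √C + 1) := by
          apply mul_le_mul h1 (by linarith) (by positivity) (by positivity)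
      _ = ε / 8 := by
          field_simp
  obtain ⟨τ2, hτ2, hvpw⟩ := Pool.Agent.H301.SZ.VPW (ε / 12) (by positivity)
  have hslam : 0 < √lam := Real.sqrt_pos.2 hlam
  set ε₁ : ℝ := min (min ε (e₀ / 2)) (min 1 (ε / 12) * √lam) with hε₁
  have hmin1 : 0 < min 1 (ε / 12) := lt_min one_pos (by positivity)
  have hε₁0 : 0 < ε₁ := lt_min (lt_min hε (by positivity)) (by positivity)
  have hε₁ε : ε₁ ≤ ε := (min_le_left _ _).trans (min_le_left _ _)
  have hε₁e : ε₁ ≤ e₀ / 2 := (min_le_left _ _).trans (min_le_right _ _)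
  have hε₁l : ε₁ ≤ min 1 (ε / 12) * √lam := min_le_right _ _
  have hmain := Pool.Agent.H301.SZ.primeroot θ lam ε₁ (min (min τ (1 / 2)) τ2) hθ hθ1 hlam hε₁0
    (lt_min (lt_min hτ (by norm_num)) hτ2)
  refine ⟨max 1 (4 / e₀ ^ 2), fun K Z => ?_⟩
  obtain ⟨X1, h1⟩ := hmain K Z
  have hlog : Filter.Tendsto (fun X : ℕ => Real.log (X : ℝ)) Filter.atTop Filter.atTop := Pool.Agent.Y829.RP.log_tend
  obtain ⟨X2, h2⟩ := ((((hlog.eventually hpt).and (hlog.eventually hup)).and (hlog.eventually hvpw)).and
    (hlog.eventually_ge_atTop 100)).exists_forall_of_atTop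
  refine ⟨max X1 (max X2 4), fun X hX => ?_⟩
  obtain ⟨ps, S, g1, g2, s1, s2, hU0⟩ := h1 X ((le_max_left _ _).trans hX)
  obtain ⟨⟨⟨hpt', hup'⟩, hvpw'⟩, hL100⟩ := h2 X ((le_max_left _ _).trans ((le_max_right _ _).trans hX))
  have hX4 : 4 ≤ X := (le_max_right _ _).trans ((le_max_right _ _).trans hX)
  have hXr : (4 : ℝ) ≤ X := by exact_mod_cast hX4
  have hX0 : (0 : ℝ) < X := by linarith
  have hfew : Few Z X S ps := by
    refine ⟨g1, fun q hq => ?_, g2.2⟩
    obtain ⟨a1, a2, -⟩ := g2.1 q hq
    refine ⟨a1, ?_⟩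
    unfold Pool.Agent.H378R2.z2 at a2
    exact (Nat.le_ceil _).trans_lt (by exact_mod_cast a2)
  refine ⟨S, ps, hfew, ?_⟩
  intro U hUl hUX
  set L := Real.log (X : ℝ) with hL
  have hL0 : 0 < L := by linarith
  have hLL1 : 1 ≤ Real.log L := by
    rw [Real.le_log_iff_exp_le hL0]
    have := Real.exp_one_lt_d9
    linarith
  have hLLp : 0 < L * Real.log L := by positivity
  have hUpos : (0 : ℝ) < U := by
    have : 0 < lam * (L * Real.log L) := by positivity
    linarith
  set W := modulus X S ps with hW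
  have hWW : W = Pool.Agent.H378R2.WW X S ps := rfl
  have hW0 : 0 < W := Pool.Agent.H378R2.WW_pos X S ps
  have hWr : (0 : ℝ) < W := by exact_mod_cast hW0
  have htot : (0 : ℝ) < (Nat.totient W : ℝ) := by exact_mod_cast Nat.totient_pos.2 hW0
  have hPp : ∀ p ∈ Pool.Agent.H378R2.PW X S ps, p.Prime ∧ (p : ℝ) ≤ L := by
    intro p hp
    refine ⟨Pool.Agent.H301.SX.PW_prime hp, ?_⟩
    have h3 := (Pool.Agent.H301.SX.mem_PW.1 hp).1.2
    have h4 : (p : ℝ) ≤ (⌊L / 1000⌋₊ : ℝ) := by exact_mod_cast h3
    have h5 : (⌊L / 1000⌋₊ : ℝ) ≤ L / 1000 := Nat.floor_le (by positivity)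
    linarith
  have htent : ∀ u : ℝ, 0 ≤ tent u := fun u => le_max_left _ _
  -- the levels
  have hlevsub : levels θ X S ps ⊆ Pool.Agent.Y829.RW.QS X S ps := by
    intro q hq
    unfold levels at hq
    unfold Pool.Agent.Y829.RW.QS
    rw [mem_filter, mem_Icc] at hq ⊢
    refine ⟨⟨hq.1.1, hq.1.2.trans ?_⟩, hq.2⟩
    exact Nat.floor_le_floor (Real.rpow_le_rpow_of_exponent_le (by linarith) hθ1)
  have hlevbig : ∀ q : ℕ, (X : ℝ) ^ θ < q → q ∉ levels θ X S ps := by
    intro q hq hq2
    unfold levels at hq2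
    rw [mem_filter, mem_Icc] at hq2
    have h3 : (q : ℝ) ≤ (⌊(X : ℝ) ^ θ⌋₊ : ℝ) := by exact_mod_cast hq2.1.2
    have h4 : ((⌊(X : ℝ) ^ θ⌋₊ : ℕ) : ℝ) ≤ (X : ℝ) ^ θ := Nat.floor_le (Real.rpow_nonneg hX0.le _)
    linarith
  -- the root law, not normalised
  have hroot : ∀ (c : ℕ → ℕ → ℝ) (M : ℝ), Good θ K X S ps c M →
      0 < ∑ n ∈ Icc 1 (3 * X), weight θ X S ps c n * tent (n / (X : ℝ)) ∧
      |√(primes θ X S ps c U * L) - √(mean θ X S ps c (expected X S ps U) * L)| ≤
        √(Real.exp Real.eulerMascheroniConstant * θ / 2 * (L * Real.log L)) + ε₁ * √U := by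
    intro c M hg
    obtain ⟨k1, k2, k3, k4⟩ := hg
    set c' : ℕ → ℕ → ℝ := fun q a => if q ∈ levels θ X S ps then c q a else 0 with hc'
    have hsum : ∀ n, ∑ q ∈ Pool.Agent.Y829.RW.QS X S ps, c' q (n % (W * q)) = weight θ X S ps c n := by
      intro n
      unfold weight
      rw [← hW, ← sum_subset hlevsub]
      · apply sum_congr rfl
        intro q hq
        rw [hc']
        exact if_pos hq
      · intro q _ hq
        rw [hc']
        exact if_neg hq
    have h3 := hU0 U hUl hUX c' M k1 (fun q _ hq a => by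
      rw [hc']
      exact if_neg (hlevbig q hq)) (fun n => by
      rw [← hWW, hsum]
      exact k2 n) (fun q _ => by
      by_cases hq : q ∈ levels θ X S ps
      · have h4 : ∀ a, c' q a = c q a := fun a => if_pos hq
        simp only [h4]
        exact k3 q hq
      · have h4 : ∀ a, c' q a = 0 := fun a => if_neg hq
        simp only [h4, abs_zero, sum_const_zero]
        exact mul_nonneg (mul_nonneg k1.le (pow_nonneg (Nat.cast_nonneg _) _)) (pow_nonneg hL0.le _)) (by
      rw [← hWW]
      simp only [hsum]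
      exact k4)
    rw [← hWW] at h3
    simp only [hsum] at h3
    obtain ⟨h4, h5⟩ := h3
    have h4' : 0 < ∑ n ∈ Icc 1 (3 * X), weight θ X S ps c n * tent (n / (X : ℝ)) := h4
    refine ⟨h4', ?_⟩
    set NN := ∑ n ∈ Icc 1 (3 * X), weight θ X S ps c n * tent (n / (X : ℝ)) with hNN
    have e1 : primes θ X S ps c U * L = (∑ n ∈ Icc 1 (3 * X), weight θ X S ps c n * ∑ h ∈ Icc 1 U, logPrime X (n + h)) / NN := by
      unfold primes
      rw [← hNN, ← hL]
      field_simp
    have e2 : mean θ X S ps c (expected X S ps U) * L = ((W : ℝ) / (Nat.totient W : ℝ) * ∑ n ∈ Icc 1 (3 * X),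
          weight θ X S ps c n * Pool.Agent.H301.SX.cop W U n * tent (n / (X : ℝ))) / NN := by
      unfold mean
      rw [← hNN]
      have e3 : ∑ n ∈ Icc 1 (3 * X), weight θ X S ps c n * tent (n / (X : ℝ)) * expected X S ps U n =
          ((W : ℝ) / (Nat.totient W : ℝ) * ∑ n ∈ Icc 1 (3 * X),
          weight θ X S ps c n * Pool.Agent.H301.SX.cop W U n * tent (n / (X : ℝ))) / L := by
        rw [mul_sum, sum_div]
        apply sum_congr rfl
        intro n _
        have h8 : expected X S ps U n = Pool.Agent.H301.SX.cop W U n * ((W : ℝ) / Nat.totient W) / L := rfl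
        rw [h8]
        ring
      rw [e3]
      field_simp
    rw [e1, e2]
    exact h5
  -- the classes
  have hexpmod : ∀ n, expected X S ps U n = expected X S ps U (n % W) := by
    intro n
    have h3 : ∀ m, expected X S ps U m = Pool.Agent.H301.SX.cop W U m * ((W : ℝ) / Nat.totient W) / L := fun _ => rfl
    have h4 := Pool.Agent.H301.SX.cop_mod W U n 1
    rw [mul_one] at h4
    rw [h3, h3, h4]
  have h1lev : 1 ∈ levels θ X S ps := by
    unfold levels
    rw [mem_filter, mem_Icc]
    refine ⟨⟨le_rfl, Nat.le_floor ?_⟩, squarefree_one, Nat.coprime_one_left _⟩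
    rw [Nat.cast_one]
    exact Real.one_le_rpow (by linarith) hθ.le
  have hcw : ∀ b n, weight θ X S ps (classWeight X S ps b) n = if n % W = b % W then 1 else 0 := by
    intro b n
    unfold weight
    rw [sum_eq_single_of_mem 1 h1lev]
    · unfold classWeight
      rw [← hW, mul_one, Nat.mod_mod]
      simp
    · intro q _ hq
      unfold classWeight
      rw [if_neg (fun h => hq h.1)]
  have hWX : W ≤ X := by
    have h3 : (W : ℝ) ≤ X := by
      calc (W : ℝ) ≤ (X : ℝ) ^ (1 / 700 : ℝ) := by
            refine (Pool.Agent.H378R2.WW_le X (by linarith) S ps).trans (le_of_eq ?_)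
            rw [Real.rpow_def_of_pos (by linarith)]
            congr 1
            ring
        _ ≤ (X : ℝ) ^ (1 : ℝ) := Real.rpow_le_rpow_of_exponent_le (by linarith) (by norm_num)
        _ = X := Real.rpow_one _
    exact_mod_cast h3
  have hgood : ∀ b, Good θ K X S ps (classWeight X S ps b) 1 := by
    intro b
    have hLK : 1 ≤ L ^ K := one_le_pow₀ (by linarith)
    refine ⟨one_pos, fun n => ?_, fun q _ => ?_, ?_⟩
    · rw [hcw]
      split_ifs <;> norm_num
    · by_cases hq : q = 1
      · subst hq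
        have h3 : ∑ a ∈ range (modulus X S ps * 1), |classWeight X S ps b 1 a| = 1 := by
          rw [mul_one, sum_eq_single_of_mem (b % W) (mem_range.2 (Nat.mod_lt _ hW0))]
          · unfold classWeight
            rw [← hW, Nat.mod_mod]
            simp
          · intro a ha hab
            unfold classWeight
            rw [if_neg, abs_zero]
            rintro ⟨-, h4⟩
            rw [← hW, Nat.mod_eq_of_lt (mem_range.1 ha)] at h4
            exact hab h4
        rw [h3, Nat.divisors_one, card_singleton, Nat.cast_one, one_pow, one_mul, one_mul]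
        exact hLK
      · have h3 : ∑ a ∈ range (modulus X S ps * q), |classWeight X S ps b q a| = 0 := by
          apply sum_eq_zero
          intro a _
          unfold classWeight
          rw [if_neg (fun h => hq h.1), abs_zero]
        rw [h3]
        exact mul_nonneg (mul_nonneg zero_le_one (pow_nonneg (Nat.cast_nonneg _) _)) (pow_nonneg hL0.le _)
    · unfold mass
      have h3 : ∑ n ∈ Ioc X (3 * X), weight θ X S ps (classWeight X S ps b) n =
          (((Ioc X (3 * X)).filter (fun n => n % W = b % W)).card : ℝ) := by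
        rw [card_filter]
        push_cast
        exact sum_congr rfl fun n _ => hcw b n
      rw [h3, one_mul, ← hW]
      refine le_trans ?_ (Pool.Agent.H301.SX.class_card W X b hW0 hWX)
      apply div_le_div_of_nonneg_left (Nat.cast_nonneg _) hWr
      exact le_mul_of_one_le_right hWr.le hLK
  have hclassE : ∀ b, mean θ X S ps (classWeight X S ps b) (expected X S ps U) = expected X S ps U b := by
    intro b
    unfold mean
    apply Pool.Agent.H301.SX.mean_const (hroot _ 1 (hgood b)).1
    intro n _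
    rw [hcw]
    by_cases h3 : n % W = b % W
    · rw [hexpmod n, h3, ← hexpmod b]
    · rw [if_neg h3]
      ring
  refine ⟨fun b => ⟨hgood b, hclassE b⟩, fun c M hg => ?_, fun hUl2 c M hg hno => ?_, fun hUB => ?_⟩
  · have h3 := (hroot c M hg).2
    have hsm : ∀ x : ℝ, √(x * L) = √x * √L := fun x => Real.sqrt_mul' x hL0.le
    have e1 : Real.exp Real.eulerMascheroniConstant * θ / 2 * (L * Real.log L) =
        Real.exp Real.eulerMascheroniConstant * θ / 2 * Real.log L * L := by ring
    have e2 : (U : ℝ) / L * L = U := by field_simp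
    have e3 : √(U : ℝ) = √((U : ℝ) / L) * √L := by rw [← hsm, e2]
    rw [hsm, hsm, e1, hsm, e3, ← sub_mul, abs_mul, abs_of_nonneg (Real.sqrt_nonneg L)] at h3
    have hsL : 0 < √L := Real.sqrt_pos.2 hL0
    have h4 : |√(primes θ X S ps c U) - √(mean θ X S ps c (expected X S ps U))| * √L ≤
        (√(Real.exp Real.eulerMascheroniConstant * θ / 2 * Real.log L) + ε₁ * √((U : ℝ) / L)) * √L := by
      rw [add_mul, mul_assoc ε₁]
      exact h3
    have h5 := le_of_mul_le_mul_right h4 hsL
    have h6 : ε₁ * √((U : ℝ) / L) ≤ ε * √((U : ℝ) / L) := mul_le_mul_of_nonneg_right hε₁ε (Real.sqrt_nonneg _)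
    linarith
  -- windows without primes
  · obtain ⟨h3, h4⟩ := hroot c M hg
    have hp0 : primes θ X S ps c U = 0 := by
      unfold primes
      rw [sum_eq_zero, zero_div]
      intro n hn
      rcases (hg.2.1 n).eq_or_lt with h5 | h5
      · rw [← h5, zero_mul]
      · rw [sum_eq_zero, mul_zero]
        intro h hh
        have hh' := mem_Icc.1 hh
        unfold logPrime
        split_ifs with hpr
        · have h6 : tent (((n + h : ℕ) : ℝ) / X) = 0 := by
            have hnh : (0 : ℝ) < ((n + h : ℕ) : ℝ) := by exact_mod_cast hpr.pos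
            have h7 : 0 < ((n + h : ℕ) : ℝ) / X := by positivity
            unfold tent
            apply max_eq_left
            by_cases h8 : X < n + h
            · have h9 := hno n hn h5 (n + h) hpr (by omega) (by omega) h8
              have h10 : Real.exp 1 ≤ ((n + h : ℕ) : ℝ) / X := by
                rw [le_div_iff₀ hX0]
                exact h9
              have h11 : 1 ≤ Real.log (((n + h : ℕ) : ℝ) / X) := (Real.le_log_iff_exp_le h7).2 h10
              have h12 := le_abs_self (Real.log (((n + h : ℕ) : ℝ) / X) - 1 / 2)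
              linarith
            · have h9 : ((n + h : ℕ) : ℝ) / X ≤ 1 := by
                rw [div_le_one hX0]
                exact_mod_cast not_lt.1 h8
              have h11 : Real.log (((n + h : ℕ) : ℝ) / X) ≤ 0 := Real.log_nonpos h7.le h9
              have h12 := neg_abs_le (Real.log (((n + h : ℕ) : ℝ) / X) - 1 / 2)
              linarith
          rw [h6, zero_mul]
        · rfl
    rw [hp0, zero_mul, Real.sqrt_zero, zero_sub, abs_neg, abs_of_nonneg (Real.sqrt_nonneg _)] at h4
    set E := mean θ X S ps c (expected X S ps U) with hE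
    have hLLs : 0 ≤ √(L * Real.log L) := Real.sqrt_nonneg _
    set c₀ : ℝ := √(Real.exp Real.eulerMascheroniConstant * θ / 2) with hc₀
    have hexpp : 0 < Real.exp Real.eulerMascheroniConstant := Real.exp_pos _
    have hc₀2 : c₀ ^ 2 = Real.exp Real.eulerMascheroniConstant * θ / 2 := Real.sq_sqrt (by positivity)
    have hc₀1 : c₀ ≤ 1 := by
      rw [hc₀, Real.sqrt_le_one]
      have h6 : Real.exp Real.eulerMascheroniConstant ≤ 4 := Pool.Agent.H301.SZ.expγ
      have := mul_le_mul_of_nonneg_right h6 hθ.le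
      linarith
    have hgc : Pool.Agent.H301.SZ.gg * c₀ ^ 2 = θ / 2 := by
      have h6 : Pool.Agent.H301.SZ.gg * Real.exp Real.eulerMascheroniConstant = 1 := by
        unfold Pool.Agent.H301.SZ.gg
        rw [← Real.exp_add, neg_add_cancel, Real.exp_zero]
      rw [hc₀2]
      calc Pool.Agent.H301.SZ.gg * (Real.exp Real.eulerMascheroniConstant * θ / 2) =
            (Pool.Agent.H301.SZ.gg * Real.exp Real.eulerMascheroniConstant) * (θ / 2) := by ring
        _ = θ / 2 := by rw [h6, one_mul]
    have h5 : √(Real.exp Real.eulerMascheroniConstant * θ / 2 * (L * Real.log L)) = c₀ * √(L * Real.log L) :=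
      Real.sqrt_mul (by positivity) _
    set y : ℝ := min 1 (ε / 12) with hy
    have h6 : ε₁ * √(U : ℝ) ≤ y * √(L * Real.log L) := by
      have h7 : √(U : ℝ) ≤ √(L * Real.log L) / √lam := by
        rw [← Real.sqrt_div hLLp.le]
        exact Real.sqrt_le_sqrt hUl2
      calc ε₁ * √(U : ℝ) ≤ (y * √lam) * (√(L * Real.log L) / √lam) :=
            mul_le_mul hε₁l h7 (Real.sqrt_nonneg _) (by positivity)
        _ = y * √(L * Real.log L) := by field_simp
    have h7 : √(E * L) ≤ (c₀ + y) * √(L * Real.log L) := by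
      rw [h5] at h4
      have : (c₀ + y) * √(L * Real.log L) = c₀ * √(L * Real.log L) + y * √(L * Real.log L) := by ring
      linarith
    have hE0 : 0 ≤ E * L := by
      apply mul_nonneg _ hL0.le
      rw [hE]
      unfold mean
      apply div_nonneg _ h3.le
      apply sum_nonneg
      intro n _
      apply mul_nonneg (mul_nonneg (hg.2.1 n) (htent _))
      have h8 : expected X S ps U n = Pool.Agent.H301.SX.cop W U n * ((W : ℝ) / Nat.totient W) / L := rfl
      rw [h8]
      exact div_nonneg (mul_nonneg (Pool.Agent.H301.SX.cop_nonneg _ _ _) (div_nonneg hWr.le htot.le)) hL0.le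
    have h8 : E * L ≤ (c₀ + y) ^ 2 * (L * Real.log L) := by
      have h9 := pow_le_pow_left₀ (Real.sqrt_nonneg _) h7 2
      rw [Real.sq_sqrt hE0, mul_pow, Real.sq_sqrt hLLp.le] at h9
      exact h9
    have hVv : Pool.Agent.Y829.V (Pool.Agent.H378R2.PW X S ps) = (Nat.totient W : ℝ) / W := Pool.Agent.H301.SX.V_tot X S ps
    have h9 : (Nat.totient W : ℝ) / W * Real.log L ≤ Pool.Agent.H301.SZ.gg * (1 + ε / 12) := by
      rw [← hVv]
      exact hvpw' _ (fun p hp => ⟨Pool.Agent.H301.SX.PW_prime hp, (Pool.Agent.H301.SX.mem_PW.1 hp).1.2⟩)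
        (s1.trans (min_le_right _ _))
    have hms : mean θ X S ps c (survivors X S ps U) = E * L * ((Nat.totient W : ℝ) / W) := by
      rw [hE]
      unfold mean
      have e1 : ∑ n ∈ Icc 1 (3 * X), weight θ X S ps c n * tent (n / (X : ℝ)) * survivors X S ps U n =
          (∑ n ∈ Icc 1 (3 * X), weight θ X S ps c n * tent (n / (X : ℝ)) * expected X S ps U n) *
            (L * ((Nat.totient W : ℝ) / W)) := by
        rw [sum_mul]
        apply sum_congr rfl
        intro n _
        have e2 : expected X S ps U n = survivors X S ps U n * ((W : ℝ) / Nat.totient W) / L := rfl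
        rw [e2]
        field_simp
      rw [e1]
      ring
    rw [hms]
    have hy0 : 0 ≤ y := hmin1.le
    have hkey := Pool.Agent.H301.SZ.corc (θ := θ) (y := y) (δ' := ε / 12) (g := Pool.Agent.H301.SZ.gg) (c := c₀) (ε := ε)
      hθ hθ1 hy0 (min_le_left _ _) (min_le_right _ _) (by positivity) le_rfl Pool.Agent.H301.SZ.gg_pos
      Pool.Agent.H301.SZ.gg_le hc₀1 hgc
    have hvr : 0 ≤ (Nat.totient W : ℝ) / W := div_nonneg htot.le hWr.le
    calc E * L * ((Nat.totient W : ℝ) / W) ≤ (c₀ + y) ^ 2 * (L * Real.log L) * ((Nat.totient W : ℝ) / W) :=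
          mul_le_mul_of_nonneg_right h8 hvr
      _ = ((c₀ + y) ^ 2 * ((Nat.totient W : ℝ) / W * Real.log L)) * L := by ring
      _ ≤ ((c₀ + y) ^ 2 * (Pool.Agent.H301.SZ.gg * (1 + ε / 12))) * L := by
          apply mul_le_mul_of_nonneg_right _ hL0.le
          exact mul_le_mul_of_nonneg_left h9 (sq_nonneg _)
      _ ≤ (θ / 2 + ε) * L := mul_le_mul_of_nonneg_right hkey hL0.le
  -- long windows
  have hULL : L * Real.log L ≤ U := by
    have h3 : 1 * (L * Real.log L) ≤ max 1 (4 / e₀ ^ 2) * (L * Real.log L) :=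
      mul_le_mul_of_nonneg_right (le_max_left _ _) hLLp.le
    linarith
  have hUe : L * Real.log L ≤ (e₀ / 2) ^ 2 * U := by
    have h3 : 4 / e₀ ^ 2 * (L * Real.log L) ≤ max 1 (4 / e₀ ^ 2) * (L * Real.log L) :=
      mul_le_mul_of_nonneg_right (le_max_right _ _) hLLp.le
    have h4 : 4 / e₀ ^ 2 * (L * Real.log L) ≤ U := h3.trans hUB
    rw [div_mul_eq_mul_div, div_le_iff₀ (by positivity)] at h4
    have h5 : (e₀ / 2) ^ 2 * (U : ℝ) = (U * e₀ ^ 2) / 4 := by ring
    rw [h5]
    linarith
  have hLU : L ≤ U := by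
    have : L * 1 ≤ L * Real.log L := mul_le_mul_of_nonneg_left hLL1 hL0.le
    linarith
  have hULp : 0 < (U : ℝ) / L := by positivity
  have hdens : ∀ n, expected X S ps U n / (U / L) = Pool.Agent.Y829.Sf (Pool.Agent.H378R2.PW X S ps) n U /
      (U * Pool.Agent.Y829.V (Pool.Agent.H378R2.PW X S ps)) := by
    intro n
    rw [← Pool.Agent.H301.SX.cop_eq, Pool.Agent.H301.SX.V_tot, ← hWW]
    have h8 : expected X S ps U n = Pool.Agent.H301.SX.cop W U n * ((W : ℝ) / Nat.totient W) / L := rfl
    rw [h8]
    exact dq hWr htot hL0 hUpos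
  have hA : ∀ n : ℕ, |expected X S ps U n / (U / L) - rough X U n| ≤ ε / 8 := by
    intro n
    rw [hdens]
    exact hpt' U hULL _ hPp (s1.trans ((min_le_left _ _).trans (min_le_left _ _)))
      (s2.trans (div_le_div_of_nonneg_right ((min_le_left _ _).trans (min_le_left _ _)) (by linarith))) n
  have hVP0 : 0 < Pool.Agent.Y829.V (Pool.Agent.H378R2.PW X S ps) :=
    Pool.Agent.H301.SX.V_pos _ (fun p hp => (hPp p hp).1)
  have hexpC : ∀ n : ℕ, expected X S ps U n ≤ C * (U / L) := by
    intro n
    have h3 := hup' _ hPp (s1.trans ((min_le_left _ _).trans (min_le_right _ _))) U hLU n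
    have h4 : expected X S ps U n / (U / L) ≤ C := by
      rw [hdens, div_le_iff₀ (by positivity)]
      exact h3
    rw [div_le_iff₀ hULp] at h4
    exact h4
  have hexp0 : ∀ n : ℕ, 0 ≤ expected X S ps U n := by
    intro n
    have h8 : expected X S ps U n = Pool.Agent.H301.SX.cop W U n * ((W : ℝ) / Nat.totient W) / L := rfl
    rw [h8]
    exact div_nonneg (mul_nonneg (Pool.Agent.H301.SX.cop_nonneg _ _ _) (div_nonneg hWr.le htot.le)) hL0.le
  have hwt : ∀ (c : ℕ → ℕ → ℝ) (M : ℝ), Good θ K X S ps c M → ∀ n ∈ Icc 1 (3 * X),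
      0 ≤ weight θ X S ps c n * tent (n / (X : ℝ)) :=
    fun c M hg n _ => mul_nonneg (hg.2.1 n) (htent _)
  have hmdiv : ∀ (c : ℕ → ℕ → ℝ) (f : ℕ → ℝ) (x : ℝ), mean θ X S ps c (fun n => f n / x) = mean θ X S ps c f / x := by
    intro c f x
    unfold mean
    have e1 : ∑ n ∈ Icc 1 (3 * X), weight θ X S ps c n * tent (n / (X : ℝ)) * (f n / x) =
        (∑ n ∈ Icc 1 (3 * X), weight θ X S ps c n * tent (n / (X : ℝ)) * f n) / x := by
      rw [sum_div]
      apply sum_congr rfl
      intro n _
      ring
    rw [e1, div_right_comm]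
  have hD : ∀ (c : ℕ → ℕ → ℝ) (M : ℝ), Good θ K X S ps c M →
      |primes θ X S ps c U / (U / L) - mean θ X S ps c (fun n => expected X S ps U n / (U / L))| ≤ ε / 8 := by
    intro c M hg
    obtain ⟨h3, h4⟩ := hroot c M hg
    have hp0 : 0 ≤ primes θ X S ps c U := by
      unfold primes
      apply div_nonneg
      · apply sum_nonneg
        intro n _
        apply mul_nonneg (hg.2.1 n)
        apply sum_nonneg
        intro h _
        unfold logPrime
        split_ifs
        · exact mul_nonneg (htent _) (Real.log_natCast_nonneg _)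
        · exact le_rfl
      · exact mul_nonneg hL0.le h3.le
    have hm0 : 0 ≤ mean θ X S ps c (expected X S ps U) := by
      unfold mean
      apply div_nonneg _ h3.le
      apply sum_nonneg
      intro n hn
      exact mul_nonneg (hwt c M hg n hn) (hexp0 n)
    have hmC : mean θ X S ps c (expected X S ps U) ≤ C * (U / L) := by
      have h5 := Pool.Agent.H301.SX.mean_le (f := expected X S ps U) (g := fun _ => C * (U / L)) (η := 0)
        (hwt c M hg) h3 (fun n _ => by
          rw [add_zero]
          exact hexpC n)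
      have h6 := Pool.Agent.H301.SX.mean_const (f := fun _ => C * ((U : ℝ) / L)) (F := C * (U / L)) h3 (fun n _ => rfl)
      rw [h6, add_zero] at h5
      exact h5
    have h5 : √(Real.exp Real.eulerMascheroniConstant * θ / 2 * (L * Real.log L)) ≤ e₀ / 2 * √U := by
      have h6 : Real.exp Real.eulerMascheroniConstant ≤ 4 := Pool.Agent.H301.SZ.expγ
      have h7 : Real.exp Real.eulerMascheroniConstant * θ / 2 ≤ 1 := by
        have := mul_le_mul_of_nonneg_right h6 hθ.le
        linarith
      calc √(Real.exp Real.eulerMascheroniConstant * θ / 2 * (L * Real.log L)) ≤ √((e₀ / 2) ^ 2 * U) := by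
            apply Real.sqrt_le_sqrt
            calc Real.exp Real.eulerMascheroniConstant * θ / 2 * (L * Real.log L) ≤ 1 * (L * Real.log L) :=
                  mul_le_mul_of_nonneg_right h7 hLLp.le
              _ ≤ _ := by linarith
        _ = e₀ / 2 * √U := by rw [Real.sqrt_mul (by positivity), Real.sqrt_sq (by positivity)]
    have h6 : ε₁ * √(U : ℝ) ≤ e₀ / 2 * √U := mul_le_mul_of_nonneg_right hε₁e (Real.sqrt_nonneg _)
    have h7 : |√(primes θ X S ps c U * L) - √(mean θ X S ps c (expected X S ps U) * L)| ≤ e₀ * √U := by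
      have : e₀ * √(U : ℝ) = e₀ / 2 * √U + e₀ / 2 * √U := by ring
      linarith
    have h8 := lin (mul_nonneg hp0 hL0.le) (mul_nonneg hm0 hL0.le) hC.le (by
      calc mean θ X S ps c (expected X S ps U) * L ≤ C * (U / L) * L := mul_le_mul_of_nonneg_right hmC hL0.le
        _ = C * U := by field_simp) hUpos.le he₀0.le h7
    have h9 : primes θ X S ps c U / (U / L) - mean θ X S ps c (fun n => expected X S ps U n / (U / L)) =
        (primes θ X S ps c U * L - mean θ X S ps c (expected X S ps U) * L) / U := by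
      rw [hmdiv]
      field_simp
    rw [h9, abs_div, abs_of_pos hUpos, div_le_iff₀ hUpos]
    exact h8.trans (mul_le_mul_of_nonneg_right he₀2 hUpos.le)
  have hmean : ∀ (c : ℕ → ℕ → ℝ) (M : ℝ), Good θ K X S ps c M →
      |mean θ X S ps c (fun n => expected X S ps U n / (U / L)) - mean θ X S ps c (rough X U)| ≤ ε / 8 := by
    intro c M hg
    have h3 := Pool.Agent.H301.SX.mean_le (f := fun n => expected X S ps U n / (U / L)) (g := rough X U) (η := ε / 8)
      (hwt c M hg) (hroot c M hg).1 (fun n _ => by linarith [(abs_le.1 (hA n)).2])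
    have h4 := Pool.Agent.H301.SX.mean_le (f := rough X U) (g := fun n => expected X S ps U n / (U / L)) (η := ε / 8)
      (hwt c M hg) (hroot c M hg).1 (fun n _ => by linarith [(abs_le.1 (hA n)).1])
    unfold mean
    rw [abs_le]
    constructor <;> linarith
  have hcp : ∀ b, |primes θ X S ps (classWeight X S ps b) U / (U / L) - expected X S ps U b / (U / L)| ≤ ε / 8 := by
    intro b
    have h3 := hD _ 1 (hgood b)
    rw [hmdiv, hclassE] at h3
    exact h3
  refine ⟨fun b => ⟨?_, (hA b).trans (by linarith)⟩, fun c M hg => ⟨?_, ?_⟩⟩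
  · have h3 := abs_le.1 (hcp b)
    have h4 := abs_le.1 (hA b)
    rw [abs_le]
    constructor <;> linarith
  · have h3 := abs_le.1 (hD c M hg)
    have h4 := abs_le.1 (hmean c M hg)
    rw [abs_le]
    constructor <;> linarith
  · obtain ⟨b, hb, hbmax⟩ := exists_max_image (range W) (fun n => expected X S ps U n / (U / L)) ⟨0, mem_range.2 hW0⟩
    obtain ⟨b', hb', hbmin⟩ := exists_min_image (range W) (fun n => expected X S ps U n / (U / L)) ⟨0, mem_range.2 hW0⟩
    have h3 := abs_le.1 (hD c M hg)
    have h4 := abs_le.1 (hcp b)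
    have h5 := abs_le.1 (hcp b')
    have hone : ∀ F : ℝ, (∑ n ∈ Icc 1 (3 * X), weight θ X S ps c n * tent (n / (X : ℝ)) * F) /
        (∑ n ∈ Icc 1 (3 * X), weight θ X S ps c n * tent (n / (X : ℝ))) = F := fun F =>
      Pool.Agent.H301.SX.mean_const (f := fun _ => F) (hroot c M hg).1 (fun n _ => rfl)
    have h6 := Pool.Agent.H301.SX.mean_le (f := fun n => expected X S ps U n / (U / L))
      (g := fun _ => expected X S ps U b / (U / L)) (η := 0)
      (hwt c M hg) (hroot c M hg).1 (fun n _ => by
        rw [hexpmod n, add_zero]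
        exact hbmax _ (mem_range.2 (Nat.mod_lt _ hW0)))
    have h7 := Pool.Agent.H301.SX.mean_le (f := fun _ => expected X S ps U b' / (U / L))
      (g := fun n => expected X S ps U n / (U / L)) (η := 0)
      (hwt c M hg) (hroot c M hg).1 (fun n _ => by
        rw [hexpmod n, add_zero]
        exact hbmin _ (mem_range.2 (Nat.mod_lt _ hW0)))
    rw [hone] at h6 h7
    have h8 : mean θ X S ps c (fun n => expected X S ps U n / (U / L)) ≤ expected X S ps U b / (U / L) := by
      unfold mean
      linarith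
    have h9 : expected X S ps U b' / (U / L) ≤ mean θ X S ps c (fun n => expected X S ps U n / (U / L)) := by
      unfold mean
      linarith
    refine ⟨b, b', ?_, ?_⟩ <;> linarith

end Pool.Agent.Results.MP_c853c5_nt.SquareRootLawForSieveWeights
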